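import Pool.Agent.Y16.AF.StmA

/-!
# Project AF, job SPW: the remaining terms
-/

set_option autoImplicit false

open Real
open Pool.Agent.Y16.AF

namespace Pool.Agent.Y572.AF

theorem cosh_le_two_sinh {x : ℝ} (hx : 1 ≤ x) : cosh x ≤ 2 * sinh x := by
  rw [cosh_eq, sinh_eq]
  have h1 : (2 : ℝ) ≤ exp x := by
    have := add_one_le_exp x
    linarith
  have h2 : exp x * exp (-x) = 1 := by rw [← exp_add]; simp
  have h3 : 0 < exp (-x) := exp_pos _
  nlinarith

theorem cosh_mul_le {a b : ℝ} (ha : 0 ≤ a) (hb : 0 ≤ b) : cosh a * cosh b ≤ cosh (a + b) := by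
  rw [cosh_add]
  have := mul_nonneg (sinh_nonneg_iff.2 ha) (sinh_nonneg_iff.2 hb)
  linarith

theorem sinh_mul_le {a b : ℝ} (ha : 0 ≤ a) (hb : 0 ≤ b) : sinh a * sinh b ≤ cosh (a + b) := by
  rw [cosh_add]
  have := mul_nonneg (cosh_pos a).le (cosh_pos b).le
  linarith

section

variable {L : ℕ} {w : ℝ}

theorem W_pos (hw : 0 < w) (hL : 1 ≤ w * L) : 0 < sinh w * sinh (w * L) :=
  mul_pos (sinh_pos_iff.2 hw) (sinh_pos_iff.2 (by linarith))

theorem div_W_le (hw : 0 < w) (hL : 1 ≤ w * L) {x : ℝ} (hx : x ≤ cosh (w * L)) :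
    x / (sinh w * sinh (w * L)) ≤ 2 / sinh w := by
  have h1 : 0 < sinh w := sinh_pos_iff.2 hw
  have h2 : 0 < sinh (w * L) := sinh_pos_iff.2 (by linarith)
  rw [div_le_div_iff₀ (mul_pos h1 h2) h1]
  have := cosh_le_two_sinh hL
  nlinarith

theorem two_div_sinh (hw : 0 < w) : 2 / sinh w ≤ 2 / w :=
  div_le_div_of_nonneg_left (by norm_num) hw (self_le_sinh_iff.2 hw.le)

theorem GN_diag (hw : 0 < w) (hL : 1 ≤ w * L) {t : ℕ} (ht : t < L) :
    0 ≤ GN L w t t ∧ GN L w t t ≤ 2 / w := by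
  have ht' : (t : ℝ) + 1 ≤ L := by exact_mod_cast ht
  rw [GN, min_self, max_self]
  constructor
  · exact div_nonneg (mul_nonneg (cosh_pos _).le (cosh_pos _).le) (W_pos hw hL).le
  · refine (div_W_le hw hL ?_).trans (two_div_sinh hw)
    refine (cosh_mul_le (by positivity) (mul_nonneg hw.le (by linarith))).trans_eq ?_
    congr 1
    ring

theorem GD_diag (hw : 0 < w) (hL : 1 ≤ w * L) {t : ℕ} (ht : t ≤ L) :
    0 ≤ GD L w t t ∧ GD L w t t ≤ 2 / sinh w := by
  have ht' : (t : ℝ) ≤ L := by exact_mod_cast ht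
  rw [GD, min_self, max_self]
  have h1 : 0 ≤ w * (t : ℝ) := by positivity
  have h2 : 0 ≤ w * ((L : ℝ) - t) := mul_nonneg hw.le (by linarith)
  constructor
  · exact div_nonneg (mul_nonneg (sinh_nonneg_iff.2 h1) (sinh_nonneg_iff.2 h2)) (W_pos hw hL).le
  · refine div_W_le hw hL ?_
    refine (sinh_mul_le h1 h2).trans_eq ?_
    congr 1
    ring

theorem GD_of_le (t s : ℕ) (h : t ≤ s) : GD L w t s =
    sinh (w * t) * sinh (w * (L - s)) / (sinh w * sinh (w * L)) := by
  rw [GD, min_eq_left h, max_eq_right h]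

theorem GD_of_ge (t s : ℕ) (h : s ≤ t) : GD L w t s =
    sinh (w * s) * sinh (w * (L - t)) / (sinh w * sinh (w * L)) := by
  rw [GD, min_eq_right h, max_eq_left h]

theorem wronski (a L w : ℝ) : sinh (w * (a + 1)) * sinh (w * (L - a)) -
    sinh (w * a) * sinh (w * (L - (a + 1))) = sinh w * sinh (w * L) := by
  have e1 : w * (a + 1) = w * a + w := by ring
  have e2 : w * (L - (a + 1)) = w * (L - a) - w := by ring
  have e3 : w * L = w * a + w * (L - a) := by ring
  rw [e3, e1, e2, sinh_add, sinh_sub, sinh_add]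
  ring

theorem offdiag (t s : ℕ) (h : t ≠ s) :
    GD L w (t + 1) (s + 1) * GD L w t s - GD L w t (s + 1) * GD L w (t + 1) s = 0 := by
  rcases lt_or_gt_of_ne h with h | h
  · rw [GD_of_le (t + 1) (s + 1) (by omega), GD_of_le t s (by omega),
      GD_of_le t (s + 1) (by omega), GD_of_le (t + 1) s (by omega)]
    ring
  · rw [GD_of_ge (t + 1) (s + 1) (by omega), GD_of_ge t s (by omega),
      GD_of_ge t (s + 1) (by omega), GD_of_ge (t + 1) s (by omega)]
    ring

theorem diag (hw : 0 < w) (hL : 1 ≤ w * L) (t : ℕ) :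
    GD L w (t + 1) (t + 1) * GD L w t t - GD L w t (t + 1) * GD L w (t + 1) t =
      sinh (w * t) * sinh (w * (L - (t + 1 : ℕ))) / (sinh w * sinh (w * L)) := by
  rw [GD_of_le (t + 1) (t + 1) le_rfl, GD_of_le t t le_rfl, GD_of_le t (t + 1) (by omega),
    GD_of_ge (t + 1) t (by omega)]
  have h := wronski (t : ℝ) L w
  have hW := (W_pos hw hL).ne'
  have hcast : ((t + 1 : ℕ) : ℝ) = t + 1 := by push_cast; ring
  rw [hcast]
  set W := sinh w * sinh (w * L) with hWd
  have h1 : sinh (w * ((t : ℝ) + 1)) * sinh (w * (L - t)) =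
    W + sinh (w * t) * sinh (w * (L - ((t : ℝ) + 1))) := by linarith
  have e : sinh (w * ((t : ℝ) + 1)) * sinh (w * (L - ((t : ℝ) + 1))) / W *
      (sinh (w * t) * sinh (w * (L - t)) / W) -
      sinh (w * t) * sinh (w * (L - ((t : ℝ) + 1))) / W *
        (sinh (w * t) * sinh (w * (L - ((t : ℝ) + 1))) / W) =
      (sinh (w * t) * sinh (w * (L - ((t : ℝ) + 1))) *
        (sinh (w * ((t : ℝ) + 1)) * sinh (w * (L - t)) -
          sinh (w * t) * sinh (w * (L - ((t : ℝ) + 1))))) / (W * W) := by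
    ring
  rw [e, h]
  field_simp

theorem diag_bound (hw : 0 < w) (hL : 1 ≤ w * L) (t : ℕ) (ht : t + 1 ≤ L) :
    0 ≤ GD L w (t + 1) (t + 1) * GD L w t t - GD L w t (t + 1) * GD L w (t + 1) t ∧
    GD L w (t + 1) (t + 1) * GD L w t t - GD L w t (t + 1) * GD L w (t + 1) t ≤ 2 / w := by
  have ht' : (t : ℝ) + 1 ≤ L := by exact_mod_cast ht
  rw [diag hw hL]
  have h1 : 0 ≤ w * (t : ℝ) := by positivity
  have h2 : 0 ≤ w * ((L : ℝ) - (t + 1 : ℕ)) := mul_nonneg hw.le (by push_cast; linarith)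
  constructor
  · exact div_nonneg (mul_nonneg (sinh_nonneg_iff.2 h1) (sinh_nonneg_iff.2 h2)) (W_pos hw hL).le
  · refine (div_W_le hw hL ?_).trans (two_div_sinh hw)
    refine (sinh_mul_le h1 h2).trans ?_
    rw [cosh_le_cosh, abs_of_nonneg (by positivity), abs_of_nonneg (by positivity)]
    push_cast
    nlinarith

end

theorem af_spw : S_SPW := by
  refine ⟨8, fun L hL2 w hw hw3 hL => ?_⟩
  have hLpos : (2 : ℝ) ≤ L := by exact_mod_cast hL2
  have hsw : 0 < sinh w := sinh_pos_iff.2 hw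
  have hcw : 0 ≤ 2 * cosh w - 2 := by have := one_le_cosh w; linarith
  have hcs : 2 * cosh w - 2 ≤ 2 * sinh w := by
    rw [cosh_eq, sinh_eq]
    have h1 : exp (-w) ≤ 1 := by rw [exp_le_one_iff]; linarith
    linarith
  -- first sum
  have s1 : 0 ≤ ∑ t ∈ Finset.range L, GN L w t t ∧
      ∑ t ∈ Finset.range L, GN L w t t ≤ 2 * (L / w) := by
    constructor
    · exact Finset.sum_nonneg fun t ht => (GN_diag hw hL (Finset.mem_range.1 ht)).1
    · refine (Finset.sum_le_card_nsmul _ _ (2 / w)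
        fun t ht => (GN_diag hw hL (Finset.mem_range.1 ht)).2).trans_eq ?_
      rw [Finset.card_range, nsmul_eq_mul]
      ring
  -- second sum
  have s2 : |∑ t ∈ Finset.range (L - 1), (1 - (2 * cosh w - 2) * GD L w (t + 1) (t + 1))| ≤
      5 * L := by
    have : ∀ t ∈ Finset.range (L - 1), |1 - (2 * cosh w - 2) * GD L w (t + 1) (t + 1)| ≤ 5 := by
      intro t ht
      have ht' : t + 1 ≤ L := by have := Finset.mem_range.1 ht; omega
      obtain ⟨g1, g2⟩ := GD_diag hw hL ht'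
      have h1 : 0 ≤ (2 * cosh w - 2) * GD L w (t + 1) (t + 1) := mul_nonneg hcw g1
      have h2 : (2 * cosh w - 2) * GD L w (t + 1) (t + 1) ≤ 2 * sinh w * (2 / sinh w) :=
        mul_le_mul hcs g2 g1 (by positivity)
      have h3 : 2 * sinh w * (2 / sinh w) = 4 := by field_simp; norm_num
      rw [abs_le]
      constructor <;> linarith
    refine (Finset.abs_sum_le_sum_abs _ _).trans
      ((Finset.sum_le_card_nsmul _ _ 5 this).trans ?_)
    rw [Finset.card_range, nsmul_eq_mul]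
    have : ((L - 1 : ℕ) : ℝ) ≤ L := by exact_mod_cast Nat.sub_le L 1
    linarith
  -- third sum
  have s3 : 0 ≤ ∑ t ∈ Finset.range (L - 2), ∑ s ∈ Finset.range (L - 2),
        (GD L w (t + 2) (s + 2) * GD L w (t + 1) (s + 1) -
          GD L w (t + 1) (s + 2) * GD L w (t + 2) (s + 1)) ∧
      ∑ t ∈ Finset.range (L - 2), ∑ s ∈ Finset.range (L - 2),
        (GD L w (t + 2) (s + 2) * GD L w (t + 1) (s + 1) -
          GD L w (t + 1) (s + 2) * GD L w (t + 2) (s + 1)) ≤ 2 * (L / w) := by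
    have e : ∀ t ∈ Finset.range (L - 2), ∑ s ∈ Finset.range (L - 2),
        (GD L w (t + 2) (s + 2) * GD L w (t + 1) (s + 1) -
          GD L w (t + 1) (s + 2) * GD L w (t + 2) (s + 1)) =
        GD L w (t + 2) (t + 2) * GD L w (t + 1) (t + 1) -
          GD L w (t + 1) (t + 2) * GD L w (t + 2) (t + 1) := by
      intro t ht
      refine Finset.sum_eq_single_of_mem t ht fun s _ hst => ?_
      exact offdiag (t + 1) (s + 1) (by omega)
    rw [Finset.sum_congr rfl e]
    constructor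
    · refine Finset.sum_nonneg fun t ht => ?_
      have ht' : (t + 1) + 1 ≤ L := by have := Finset.mem_range.1 ht; omega
      exact (diag_bound hw hL (t + 1) ht').1
    · have : ∀ t ∈ Finset.range (L - 2), GD L w (t + 2) (t + 2) * GD L w (t + 1) (t + 1) -
          GD L w (t + 1) (t + 2) * GD L w (t + 2) (t + 1) ≤ 2 / w := by
        intro t ht
        have ht' : (t + 1) + 1 ≤ L := by have := Finset.mem_range.1 ht; omega
        exact (diag_bound hw hL (t + 1) ht').2
      refine (Finset.sum_le_card_nsmul _ _ (2 / w) this).trans ?_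
      rw [Finset.card_range, nsmul_eq_mul]
      have h1 : ((L - 2 : ℕ) : ℝ) ≤ L := by exact_mod_cast Nat.sub_le L 2
      have h2 : 0 ≤ 2 / w := by positivity
      calc ((L - 2 : ℕ) : ℝ) * (2 / w) ≤ L * (2 / w) := mul_le_mul_of_nonneg_right h1 h2
        _ = 2 * (L / w) := by ring
  have h5 : (L : ℝ) ≤ 3 * (L / w) := by
    rw [mul_div_assoc', le_div_iff₀ hw]
    nlinarith
  have h0 : 0 ≤ (L : ℝ) / w := by positivity
  rw [FW]
  obtain ⟨a1, a2⟩ := s1
  obtain ⟨b1, b2⟩ := abs_le.1 s2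
  obtain ⟨c1, c2⟩ := s3
  rw [abs_le]
  constructor <;> linarith

end Pool.Agent.Y572.AF
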